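import Pool.Agent.Helper36.RI.Goals

/-!
# Project RF, packet RIC: the Ricci tensor of Core in the frame
-/

namespace Pool.Agent.Helper26.RI

open Pool.Agent.Helper36.RS Pool.Agent.Helper73.RF Pool.Agent.Helper36.RI
open Pool.Agent.Helper47.RF hiding eps

theorem eps_eq (i j k : Fin 3) : Pool.Agent.Helper47.RF.eps i j k = Pool.Agent.Helper73.RF.eps i j k := by
  fin_cases i <;> fin_cases j <;> fin_cases k <;>
    simp [Pool.Agent.Helper47.RF.eps, Pool.Agent.Helper73.RF.eps] <;> norm_num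

theorem fin_step (A θ : Fin 3 → Fin 3 → XS) (a b : Fin 3) (x : HH)
    (hsym : (FR.N Ed A θ b a).1 x = (FR.N Ed A θ a b).1 x) :
    ((if a = b then ∑ i, FR.N Ed A θ i i else 0) - FR.N Ed A θ b a : XS).1 x =
      (FR.Ricf Ed A θ a b).1 x := by
  unfold FR.Ricf
  generalize FR.N Ed A θ = N at *
  generalize (if a = b then ∑ i, N i i else 0) = z
  have e1 : (z - N b a : XS).1 x = z.1 x - (N b a).1 x := rfl
  have e2 : (z - N a b : XS).1 x = z.1 x - (N a b).1 x := rfl
  rw [e1, e2, hsym]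

variable {A θ : MF} (h : Frm A θ)

/-- the frame in `XS` -/
def hA (h : Frm A θ) : Fin 3 → Fin 3 → XS := fun a i => ⟨fun y => A y a i, h.smA a i⟩

/-- the coframe in `XS` -/
def ht (h : Frm A θ) : Fin 3 → Fin 3 → XS := fun i a => ⟨fun y => θ y i a, h.smt i a⟩

include h

theorem inv_sum (x : HH) (a c : Fin 3) : ∑ i, A x a i * θ x i c = if a = c then 1 else 0 := by
  have := congrFun (congrFun (h.inv x) a) c
  rw [Matrix.mul_apply, Matrix.one_apply] at this
  exact this

theorem inv_sum' (x : HH) (i j : Fin 3) : ∑ a, θ x i a * A x a j = if i = j then 1 else 0 := by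
  have h1 : θ x * A x = 1 := mul_eq_one_comm.1 (h.inv x)
  have := congrFun (congrFun h1 i) j
  rw [Matrix.mul_apply, Matrix.one_apply] at this
  exact this

theorem frameHyp : FrameHyp Ed (hA h) (ht h) := by
  refine ⟨fun i j f => ?_, fun a b => ?_, fun i j => ?_⟩
  · rw [comm i j f]
    simp only [eps_eq]
  · apply Subtype.ext
    funext x
    have e1 : (∑ i, hA h a i * ht h i b : XS).1 x = ∑ i, A x a i * θ x i b := by
      simp [Fin.sum_univ_three, hA, ht]
    rw [e1, inv_sum h x a b]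
    split_ifs <;> rfl
  · apply Subtype.ext
    funext x
    have e1 : (∑ a, ht h i a * hA h a j : XS).1 x = ∑ a, θ x i a * A x a j := by
      simp [Fin.sum_univ_three, hA, ht]
    rw [e1, inv_sum' h x i j]
    split_ifs <;> rfl

theorem g_val (i j : Fin 3) : (FR.g (ht h) i j).1 = fun x => gOf θ x i j := by
  funext x
  simp [FR.g, gOf, Matrix.mul_apply, Matrix.transpose_apply, Fin.sum_univ_three, ht]

theorem ginv (x : HH) : (gOf θ x)⁻¹ = (A x).transpose * A x := by
  apply Matrix.inv_eq_right_inv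
  have h1 : θ x * A x = 1 := mul_eq_one_comm.1 (h.inv x)
  unfold gOf
  calc θ x * (θ x).transpose * ((A x).transpose * A x)
      = θ x * ((A x * θ x).transpose) * A x := by
        rw [Matrix.transpose_mul]; simp only [Matrix.mul_assoc]
    _ = 1 := by rw [h.inv x, Matrix.transpose_one, Matrix.mul_one, h1]

theorem gi_val (i j : Fin 3) (x : HH) : (FR.gi (hA h) i j).1 x = (gOf θ x)⁻¹ i j := by
  rw [ginv h]
  simp [FR.gi, Matrix.mul_apply, Matrix.transpose_apply, Fin.sum_univ_three, hA]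

theorem KL_val (i j k : Fin 3) : (FR.KL Ed (ht h) i j k).1 = GamL (gOf θ) i j k := by
  funext x
  have e1 : ∀ a b c, (Ed a (FR.g (ht h) b c)).1 x = E a (fun y => gOf θ y b c) x := by
    intro a b c
    rw [Ed_val, g_val]
  have e2 : ∀ b c, (FR.g (ht h) b c).1 x = gOf θ x b c := fun b c => congrFun (g_val h b c) x
  unfold FR.KL GamL
  simp only [← e1, ← e2, eps_eq]
  simp [Fin.sum_univ_three]
  ring

theorem KE_val (i j k : Fin 3) :
    (FR.KE Ed (hA h) (ht h) i j k).1 = Pool.Agent.Helper47.RF.Gam (gOf θ) i j k := by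
  funext x
  have e2 : ∀ i j k, (FR.KL Ed (ht h) i j k).1 x = GamL (gOf θ) i j k x := fun i j k =>
    congrFun (KL_val h i j k) x
  unfold FR.KE Pool.Agent.Helper47.RF.Gam
  simp only [← e2, ← gi_val h]
  simp [Fin.sum_univ_three]

theorem RE_val (i j k l : Fin 3) (x : HH) :
    (FR.RE Ed (hA h) (ht h) i j k l).1 x = Rup (gOf θ) i j k l x := by
  have e1 : ∀ a b c d, (Ed a (FR.KE Ed (hA h) (ht h) b c d)).1 x =
      E a (Pool.Agent.Helper47.RF.Gam (gOf θ) b c d) x := by
    intro a b c d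
    rw [Ed_val, KE_val]
  have e2 : ∀ b c d, (FR.KE Ed (hA h) (ht h) b c d).1 x =
      Pool.Agent.Helper47.RF.Gam (gOf θ) b c d x := fun b c d => congrFun (KE_val h b c d) x
  unfold FR.RE Rup
  simp only [← e1, ← e2, eps_eq]
  simp [Fin.sum_univ_three]
  ring

omit h in
theorem ric : G_RIC := by
  intro _ _ hG hB A θ h x hx a b
  have hF := frameHyp h
  have H := (hG XS Ed (hA h) (ht h) hF).2.2 a b
  have Hx : (∑ j, ∑ k, hA h a j * hA h b k * ∑ i, FR.RE Ed (hA h) (ht h) i j k i : XS).1 x =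
      ((if a = b then ∑ i, FR.N Ed (hA h) (ht h) i i else 0) -
        FR.N Ed (hA h) (ht h) b a : XS).1 x := by rw [H]
  have hinv : Pool.Agent.Helper36.RI.Inv (hA h) (ht h) := fun y _ a c => inv_sum h y a c
  have hsym := (hB (hA h) (ht h) hinv).1 b a x hx
  have e1 : RicF A θ x a b =
      (∑ j, ∑ k, hA h a j * hA h b k * ∑ i, FR.RE Ed (hA h) (ht h) i j k i : XS).1 x := by
    unfold RicF Ric
    simp only [← RE_val h]
    simp [Fin.sum_univ_three, hA]
  rw [e1, Hx]
  have eA : (fun a i => (⟨fun y => A y a i, h.smA a i⟩ : XS)) = hA h := rfl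
  have et : (fun i a => (⟨fun y => θ y i a, h.smt i a⟩ : XS)) = ht h := rfl
  rw [eA, et]
  exact fin_step (hA h) (ht h) a b x hsym

end Pool.Agent.Helper26.RI
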